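import Mathlib

/-!
# Jet ideals of the edge ideal of a triangle have embedded primes

Let `C` be the triangle, a clutter on three vertices. Over every field of characteristic `≠ 2` the
1-jet ideal of its edge ideal has an embedded prime, and over every field of characteristic `≠ 3`
the 2-jet ideal of its edge ideal has an embedded prime.
-/

set_option autoImplicit false

open MvPolynomial

namespace Pool.Agent.Results.MP_dc74b6_ag.TriangleJets

/-- `C` is a clutter on the vertex set `Fin n`: a set of nonempty subsets (the edges), none of which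
contains another. -/
def IsClutter {n : ℕ} (C : Set (Finset (Fin n))) : Prop :=
  (∀ e ∈ C, e.Nonempty) ∧ ∀ e ∈ C, ∀ e' ∈ C, e ⊆ e' → e = e'

/-- The edge ideal of `C`: it is generated by the monomials `∏_{i ∈ e} x_i`, `e` an edge. -/
noncomputable def edgeIdeal (k : Type*) [Field k] {n : ℕ} (C : Set (Finset (Fin n))) :
    Ideal (MvPolynomial (Fin n) k) :=
  Ideal.span ((fun e : Finset (Fin n) => ∏ i ∈ e, (X i : MvPolynomial (Fin n) k)) '' C)

/-- The substitution `x_i ↦ ∑_{j=0}^{s} x_{i,j} t^j`. -/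
noncomputable def jetSubst (k : Type*) [Field k] (n s : ℕ) :
    MvPolynomial (Fin n) k →ₐ[k] Polynomial (MvPolynomial (Fin n × Fin (s + 1)) k) :=
  aeval fun i => ∑ j : Fin (s + 1), Polynomial.C (X (i, j)) * Polynomial.X ^ (j : ℕ)

/-- The `s`-jet ideal of `I`: it is generated by the coefficients `f^{(j)}` of `t^j`, `0 ≤ j ≤ s`,
in the polynomials obtained from the elements `f` of `I` by the substitution. -/
noncomputable def jetIdeal {k : Type*} [Field k] {n : ℕ} (s : ℕ)
    (I : Ideal (MvPolynomial (Fin n) k)) : Ideal (MvPolynomial (Fin n × Fin (s + 1)) k) :=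
  Ideal.span {g | ∃ f ∈ I, ∃ j ≤ s, g = (jetSubst k n s f).coeff j}

/-- `J` has an embedded component: there is an associated prime of `S/J` that is not minimal
over `J`. -/
def HasEmbeddedComponent {S : Type*} [CommRing S] (J : Ideal S) : Prop :=
  ∃ Q ∈ associatedPrimes S (S ⧸ J), Q ∉ J.minimalPrimes

/-- The triangle. -/
def triangle : Set (Finset (Fin 3)) := {{0, 1}, {0, 2}, {1, 2}}

section

variable {k : Type*} [Field k] {n s : ℕ}

/-- the generic arc of the vertex `i`, mapped to `A` -/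
noncomputable def arc {A : Type*} [CommRing A] (φ : MvPolynomial (Fin n × Fin (s + 1)) k →+* A)
    (i : Fin n) : Polynomial A :=
  ∑ j : Fin (s + 1), Polynomial.C (φ (X (i, j))) * Polynomial.X ^ (j : ℕ)

lemma map_jetSubst {A : Type*} [CommRing A] (φ : MvPolynomial (Fin n × Fin (s + 1)) k →+* A)
    (e : Finset (Fin n)) :
    Polynomial.map φ (jetSubst k n s (∏ i ∈ e, X i)) = ∏ i ∈ e, arc φ i := by
  rw [map_prod, Polynomial.map_prod]
  refine Finset.prod_congr rfl fun i _ => ?_
  rw [jetSubst, aeval_X, Polynomial.map_sum, arc]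
  refine Finset.sum_congr rfl fun j _ => ?_
  rw [Polynomial.map_mul, Polynomial.map_C, Polynomial.map_pow, Polynomial.map_X]

/-- a ring homomorphism kills the jet ideal if the arcs satisfy the equations modulo `t^(s+1)` -/
lemma jet_le_ker {A : Type*} [CommRing A] (φ : MvPolynomial (Fin n × Fin (s + 1)) k →+* A)
    {C : Set (Finset (Fin n))}
    (h : ∀ e ∈ C, Polynomial.X ^ (s + 1) ∣ ∏ i ∈ e, arc φ i) :
    jetIdeal s (edgeIdeal k C) ≤ RingHom.ker φ := by
  rw [jetIdeal, Ideal.span_le]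
  rintro g ⟨f, hf, j, hj, rfl⟩
  rw [SetLike.mem_coe, RingHom.mem_ker]
  have hle : edgeIdeal k C ≤
      (Ideal.span {(Polynomial.X : Polynomial A) ^ (s + 1)}).comap
        ((Polynomial.mapRingHom φ).comp (jetSubst k n s : _ →+* _)) := by
    rw [edgeIdeal, Ideal.span_le]
    rintro _ ⟨e, he, rfl⟩
    rw [SetLike.mem_coe, Ideal.mem_comap, Ideal.mem_span_singleton]
    have := h e he
    rw [← map_jetSubst] at this
    exact this
  have h1 := hle hf
  rw [Ideal.mem_comap, Ideal.mem_span_singleton, Polynomial.X_pow_dvd_iff] at h1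
  have h2 := h1 j (Nat.lt_succ_of_le hj)
  rw [RingHom.comp_apply, Polynomial.coe_mapRingHom, Polynomial.coeff_map] at h2
  exact h2

/-- in the coordinate ring of the jets the arcs satisfy the equations modulo `t^(s+1)` -/
lemma dvd_of_mem {C : Set (Finset (Fin n))} {e : Finset (Fin n)} (he : e ∈ C) :
    Polynomial.X ^ (s + 1) ∣
      ∏ i ∈ e, arc (Ideal.Quotient.mk (jetIdeal s (edgeIdeal k C))) i := by
  rw [← map_jetSubst, Polynomial.X_pow_dvd_iff]
  intro j hj
  rw [Polynomial.coeff_map, Ideal.Quotient.eq_zero_iff_mem]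
  exact Ideal.subset_span ⟨_, Ideal.subset_span ⟨e, he, rfl⟩, j, Nat.lt_succ_iff.1 hj, rfl⟩

/-- the retraction killing the variables in `Z` -/
noncomputable def kill (k : Type*) [Field k] {σ : Type*} [DecidableEq σ] (Z : Finset σ) :
    MvPolynomial σ k →ₐ[k] MvPolynomial σ k :=
  aeval fun v => if v ∈ Z then 0 else X v

lemma ker_kill_le {σ : Type*} [DecidableEq σ] (Z : Finset σ) (Q : Ideal (MvPolynomial σ k))
    (h : ∀ v ∈ Z, X v ∈ Q) : RingHom.ker (kill k Z) ≤ Q := by
  intro f hf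
  have key : ((Ideal.Quotient.mkₐ k Q).comp (kill k Z)) = Ideal.Quotient.mkₐ k Q := by
    apply algHom_ext
    intro v
    rw [AlgHom.comp_apply, kill, aeval_X]
    split_ifs with hv
    · rw [map_zero]
      exact (Ideal.Quotient.eq_zero_iff_mem.2 (h v hv)).symm
    · rfl
  rw [← Ideal.Quotient.eq_zero_iff_mem]
  have := congrArg (fun ψ => ψ f) key
  simp only [AlgHom.comp_apply, RingHom.mem_ker.1 hf, map_zero] at this
  exact this.symm

/-- criterion for embedded primes -/
lemma hasEmbedded_of {σ : Type*} [Finite σ] [DecidableEq σ] (J : Ideal (MvPolynomial σ k))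
    (Z : Finset σ) (hJ : J ≤ RingHom.ker (kill k Z)) (g : MvPolynomial σ k) (hg : g ∉ J)
    (hZ : ∀ v ∈ Z, X v * g ∈ J) (w : σ) (hw : w ∉ Z) (hwg : X w * g ∈ J) :
    HasEmbeddedComponent J := by
  have hne : (Ideal.Quotient.mk J g) ≠ 0 := fun h => hg (Ideal.Quotient.eq_zero_iff_mem.1 h)
  obtain ⟨Q, hQ, hle⟩ := exists_le_isAssociatedPrime_of_isNoetherianRing
    (MvPolynomial σ k) (Ideal.Quotient.mk J g) hne
  have hmem : ∀ v, X v * g ∈ J → X v ∈ Q := by
    intro v hv
    apply hle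
    rw [Submodule.mem_colon_singleton, Submodule.mem_bot]
    exact (Ideal.Quotient.eq_zero_iff_mem (I := J) (a := X v * g)).2 hv
  refine ⟨Q, hQ, fun hmin => ?_⟩
  have hPQ : RingHom.ker (kill k Z) ≤ Q := ker_kill_le Z Q fun v hv => hmem v (hZ v hv)
  have hprime : (RingHom.ker (kill k Z)).IsPrime := RingHom.ker_isPrime _
  have hQP : Q ≤ RingHom.ker (kill k Z) := hmin.2 ⟨hprime, hJ⟩ hPQ
  have h1 := hQP (hmem w hwg)
  rw [RingHom.mem_ker, kill, aeval_X, if_neg hw] at h1
  exact X_ne_zero w h1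

end

section triangle

variable {A : Type*} [CommRing A]

lemma dvd2 (a b c d : A) :
    (Polynomial.X : Polynomial A) ^ 2 ∣
      (Polynomial.C a * Polynomial.X ^ 0 + Polynomial.C b * Polynomial.X ^ 1) *
      (Polynomial.C c * Polynomial.X ^ 0 + Polynomial.C d * Polynomial.X ^ 1) ↔
    a * c = 0 ∧ a * d + b * c = 0 := by
  have h : (Polynomial.C a * Polynomial.X ^ 0 + Polynomial.C b * Polynomial.X ^ 1) *
      (Polynomial.C c * Polynomial.X ^ 0 + Polynomial.C d * Polynomial.X ^ 1) =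
      Polynomial.C (a * c) + Polynomial.C (a * d + b * c) * Polynomial.X ^ 1 +
        Polynomial.C (b * d) * Polynomial.X ^ 2 := by
    simp only [map_mul, map_add]; ring
  rw [h, Polynomial.X_pow_dvd_iff]
  simp only [Polynomial.coeff_add, Polynomial.coeff_C_mul, Polynomial.coeff_X_pow,
    Polynomial.coeff_C]
  constructor
  · intro h
    have h0 := h 0 (by norm_num)
    have h1 := h 1 (by norm_num)
    simp at h0 h1
    exact ⟨h0, h1⟩
  · rintro ⟨h0, h1⟩ j hj
    interval_cases j <;> simp [h0, h1]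

lemma dvd3 (a b c a' b' c' : A) :
    (Polynomial.X : Polynomial A) ^ 3 ∣
      (Polynomial.C a * Polynomial.X ^ 0 + Polynomial.C b * Polynomial.X ^ 1 +
        Polynomial.C c * Polynomial.X ^ 2) *
      (Polynomial.C a' * Polynomial.X ^ 0 + Polynomial.C b' * Polynomial.X ^ 1 +
        Polynomial.C c' * Polynomial.X ^ 2) ↔
    a * a' = 0 ∧ a * b' + b * a' = 0 ∧ a * c' + b * b' + c * a' = 0 := by
  have h : (Polynomial.C a * Polynomial.X ^ 0 + Polynomial.C b * Polynomial.X ^ 1 +
        Polynomial.C c * Polynomial.X ^ 2) *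
      (Polynomial.C a' * Polynomial.X ^ 0 + Polynomial.C b' * Polynomial.X ^ 1 +
        Polynomial.C c' * Polynomial.X ^ 2) =
      Polynomial.C (a * a') + Polynomial.C (a * b' + b * a') * Polynomial.X ^ 1 +
        Polynomial.C (a * c' + b * b' + c * a') * Polynomial.X ^ 2 +
        Polynomial.C (b * c' + c * b') * Polynomial.X ^ 3 +
        Polynomial.C (c * c') * Polynomial.X ^ 4 := by
    simp only [map_mul, map_add]; ring
  rw [h, Polynomial.X_pow_dvd_iff]
  simp only [Polynomial.coeff_add, Polynomial.coeff_C_mul, Polynomial.coeff_X_pow,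
    Polynomial.coeff_C]
  constructor
  · intro h
    have h0 := h 0 (by norm_num)
    have h1 := h 1 (by norm_num)
    have h2 := h 2 (by norm_num)
    simp at h0 h1 h2
    exact ⟨h0, h1, h2⟩
  · rintro ⟨h0, h1, h2⟩ j hj
    interval_cases j <;> simp [h0, h1, h2]

lemma isClutter_triangle : IsClutter triangle := by
  constructor
  · rintro e (rfl | rfl | rfl) <;> simp
  · rintro e (rfl | rfl | rfl) e' (rfl | rfl | rfl) <;> decide

variable {k : Type*} [Field k] {s : ℕ}

lemma triangle_iff (φ : MvPolynomial (Fin 3 × Fin (s + 1)) k →+* A) :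
    (∀ e ∈ triangle, Polynomial.X ^ (s + 1) ∣ ∏ i ∈ e, arc φ i) ↔
      Polynomial.X ^ (s + 1) ∣ arc φ 0 * arc φ 1 ∧ Polynomial.X ^ (s + 1) ∣ arc φ 0 * arc φ 2 ∧
      Polynomial.X ^ (s + 1) ∣ arc φ 1 * arc φ 2 := by
  simp [triangle, Set.mem_insert_iff, Finset.prod_insert, Finset.prod_singleton]

lemma rel1 (φ : MvPolynomial (Fin 3 × Fin (1 + 1)) k →+* A) (i j : Fin 3) :
    Polynomial.X ^ (1 + 1) ∣ arc φ i * arc φ j ↔
      φ (X (i, 0)) * φ (X (j, 0)) = 0 ∧
      φ (X (i, 0)) * φ (X (j, 1)) + φ (X (i, 1)) * φ (X (j, 0)) = 0 := by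
  rw [← dvd2]
  have h : ∀ i, arc φ i = Polynomial.C (φ (X (i, 0))) * Polynomial.X ^ 0 +
      Polynomial.C (φ (X (i, 1))) * Polynomial.X ^ 1 := fun i => Fin.sum_univ_two _
  rw [h, h]

lemma rel2 (φ : MvPolynomial (Fin 3 × Fin (2 + 1)) k →+* A) (i j : Fin 3) :
    Polynomial.X ^ (2 + 1) ∣ arc φ i * arc φ j ↔
      φ (X (i, 0)) * φ (X (j, 0)) = 0 ∧
      φ (X (i, 0)) * φ (X (j, 1)) + φ (X (i, 1)) * φ (X (j, 0)) = 0 ∧
      φ (X (i, 0)) * φ (X (j, 2)) + φ (X (i, 1)) * φ (X (j, 1)) +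
        φ (X (i, 2)) * φ (X (j, 0)) = 0 := by
  rw [← dvd3]
  have h : ∀ i, arc φ i = Polynomial.C (φ (X (i, 0))) * Polynomial.X ^ 0 +
      Polynomial.C (φ (X (i, 1))) * Polynomial.X ^ 1 +
      Polynomial.C (φ (X (i, 2))) * Polynomial.X ^ 2 := fun i => Fin.sum_univ_three _
  rw [h, h]

/-- the 1-jets in characteristic `≠ 2` -/
lemma one_jets (h2 : (2 : k) ≠ 0) :
    HasEmbeddedComponent (jetIdeal 1 (edgeIdeal k triangle)) := by
  set J := jetIdeal 1 (edgeIdeal k triangle) with hJ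
  have hrel := (triangle_iff (Ideal.Quotient.mk J)).1 fun e he => dvd_of_mem he
  rw [rel1, rel1, rel1] at hrel
  obtain ⟨⟨a1, a2⟩, ⟨b1, b2⟩, ⟨c1, c2⟩⟩ := hrel
  have h2' : (2 : MvPolynomial (Fin 3 × Fin (1 + 1)) k ⧸ J) * algebraMap k _ (2⁻¹) = 1 := by
    have := congrArg (algebraMap k (MvPolynomial (Fin 3 × Fin (1 + 1)) k ⧸ J))
      (mul_inv_cancel₀ h2)
    simpa only [map_mul, map_ofNat, map_one] using this
  refine hasEmbedded_of J {(0, 0), (1, 0), (2, 0)} ?_ (X (0, 0) * X (1, 1)) ?_ ?_ (2, 1)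
    (by decide) ?_
  · apply jet_le_ker
    rw [triangle_iff, rel1, rel1, rel1]
    simp [kill]
  · intro hg
    -- the arcs `X` and `1`, `-X` and `1`
    let v : Fin 3 × Fin 2 → Polynomial k :=
      fun p => if p.1 = 0 then (if p.2 = 0 then Polynomial.X else 1)
        else if p.1 = 1 then (if p.2 = 0 then -Polynomial.X else 1) else 0
    let ψ : MvPolynomial (Fin 3 × Fin 2) k →+* Polynomial k ⧸ (Ideal.span
      {(Polynomial.X : Polynomial k) ^ 2}) :=
      (Ideal.Quotient.mk _).comp (aeval v : MvPolynomial (Fin 3 × Fin 2) k →ₐ[k] _).toRingHom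
    have hψ : ∀ p, ψ (X p) = Ideal.Quotient.mk _ (v p) := fun p => by
      simp [ψ]
    have hle : J ≤ RingHom.ker ψ := by
      apply jet_le_ker
      rw [triangle_iff, rel1, rel1, rel1]
      simp only [hψ, ← map_mul, ← map_add, Ideal.Quotient.eq_zero_iff_mem,
        Ideal.mem_span_singleton]
      refine ⟨⟨⟨-1, ?_⟩, ⟨0, ?_⟩⟩, ⟨⟨0, ?_⟩, ⟨0, ?_⟩⟩, ⟨⟨0, ?_⟩, ⟨0, ?_⟩⟩⟩ <;>
        simp [v, sq]
    have h1 := hle hg
    rw [RingHom.mem_ker, map_mul, hψ, hψ, ← map_mul, Ideal.Quotient.eq_zero_iff_mem,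
      Ideal.mem_span_singleton, Polynomial.X_pow_dvd_iff] at h1
    have h3 := h1 1 (by norm_num)
    simp [v] at h3
  · intro v hv
    rw [← Ideal.Quotient.eq_zero_iff_mem]
    simp only [map_mul]
    simp only [Finset.mem_insert, Finset.mem_singleton] at hv
    rcases hv with rfl | rfl | rfl
    · linear_combination (Ideal.Quotient.mk J (X (0, 0))) * a2 - (Ideal.Quotient.mk J (X (0, 1))) * a1
    · linear_combination (Ideal.Quotient.mk J (X (1, 1))) * a1
    · linear_combination (Ideal.Quotient.mk J (X (1, 1))) * b1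
  · rw [← Ideal.Quotient.eq_zero_iff_mem]
    simp only [map_mul]
    linear_combination (algebraMap k (MvPolynomial (Fin 3 × Fin (1 + 1)) k ⧸ J) 2⁻¹) *
      ((Ideal.Quotient.mk J (X (2, 1))) * a2 - (Ideal.Quotient.mk J (X (0, 1))) * c2 +
        (Ideal.Quotient.mk J (X (1, 1))) * b2) -
      (Ideal.Quotient.mk J (X (2, 1))) * (Ideal.Quotient.mk J (X (0, 0))) *
        (Ideal.Quotient.mk J (X (1, 1))) * h2'

/-- the 2-jets in characteristic `≠ 3` -/
lemma two_jets (h3 : (3 : k) ≠ 0) :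
    HasEmbeddedComponent (jetIdeal 2 (edgeIdeal k triangle)) := by
  set J := jetIdeal 2 (edgeIdeal k triangle) with hJ
  have hrel := (triangle_iff (Ideal.Quotient.mk J)).1 fun e he => dvd_of_mem he
  rw [rel2, rel2, rel2] at hrel
  obtain ⟨⟨a1, a2, a3⟩, ⟨b1, b2, b3⟩, ⟨c1, c2, c3⟩⟩ := hrel
  have h3' : (3 : MvPolynomial (Fin 3 × Fin (2 + 1)) k ⧸ J) * algebraMap k _ (3⁻¹) = 1 := by
    have := congrArg (algebraMap k (MvPolynomial (Fin 3 × Fin (2 + 1)) k ⧸ J))
      (mul_inv_cancel₀ h3)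
    simpa only [map_mul, map_ofNat, map_one] using this
  refine hasEmbedded_of J {(0, 0), (0, 1), (1, 0), (1, 1), (2, 0)} ?_
    (X (1, 2) * X (2, 0) ^ 2) ?_ ?_ (0, 2) (by decide) ?_
  · apply jet_le_ker
    rw [triangle_iff, rel2, rel2, rel2]
    simp [kill]
  · intro hg
    -- the arcs `0`, `X ^ 2 + X t + t ^ 2` and `-X + t`
    let v : Fin 3 × Fin 3 → Polynomial k :=
      fun p => if p.1 = 0 then 0 else if p.1 = 1 then
        (if p.2 = 0 then Polynomial.X ^ 2 else if p.2 = 1 then Polynomial.X else 1)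
        else (if p.2 = 0 then - Polynomial.X else if p.2 = 1 then 1 else 0)
    let ψ : MvPolynomial (Fin 3 × Fin 3) k →+* Polynomial k ⧸ (Ideal.span
      {(Polynomial.X : Polynomial k) ^ 3}) :=
      (Ideal.Quotient.mk _).comp (aeval v : MvPolynomial (Fin 3 × Fin 3) k →ₐ[k] _).toRingHom
    have hψ : ∀ p, ψ (X p) = Ideal.Quotient.mk _ (v p) := fun p => by
      simp [ψ]
    have hle : J ≤ RingHom.ker ψ := by
      apply jet_le_ker
      rw [triangle_iff, rel2, rel2, rel2]
      simp only [hψ, ← map_mul, ← map_add, Ideal.Quotient.eq_zero_iff_mem,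
        Ideal.mem_span_singleton]
      refine ⟨⟨⟨0, ?_⟩, ⟨0, ?_⟩, ⟨0, ?_⟩⟩, ⟨⟨0, ?_⟩, ⟨0, ?_⟩, ⟨0, ?_⟩⟩,
        ⟨⟨-1, ?_⟩, ⟨0, ?_⟩, ⟨0, ?_⟩⟩⟩ <;>
        simp [v] <;> ring
    have h1 := hle hg
    rw [RingHom.mem_ker, map_mul, map_pow, hψ, hψ, ← map_pow, ← map_mul,
      Ideal.Quotient.eq_zero_iff_mem, Ideal.mem_span_singleton, Polynomial.X_pow_dvd_iff] at h1
    have h3 := h1 2 (by norm_num)
    simp [v] at h3
  · intro v hv
    rw [← Ideal.Quotient.eq_zero_iff_mem]
    simp only [map_mul, map_pow]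
    simp only [Finset.mem_insert, Finset.mem_singleton] at hv
    rcases hv with rfl | rfl | rfl | rfl | rfl
    all_goals
      generalize Ideal.Quotient.mk J (X (0, 0)) = x0 at *
      generalize Ideal.Quotient.mk J (X (0, 1)) = y0 at *
      generalize Ideal.Quotient.mk J (X (0, 2)) = z0 at *
      generalize Ideal.Quotient.mk J (X (1, 0)) = x1 at *
      generalize Ideal.Quotient.mk J (X (1, 1)) = y1 at *
      generalize Ideal.Quotient.mk J (X (1, 2)) = z1 at *
      generalize Ideal.Quotient.mk J (X (2, 0)) = x2 at *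
      generalize Ideal.Quotient.mk J (X (2, 1)) = y2 at *
      generalize Ideal.Quotient.mk J (X (2, 2)) = z2 at *
    · linear_combination z1 * x2 * b1
    · linear_combination z1 * x2 * b2 - z1 * y2 * b1
    · linear_combination z1 * x2 * c1
    · linear_combination z1 * x2 * c2 - z1 * y2 * c1
    · linear_combination x2 ^ 2 * c3 - z2 * x2 * c1 - y2 * x2 * c2 + y2 ^ 2 * c1
  · rw [← Ideal.Quotient.eq_zero_iff_mem]
    simp only [map_mul, map_pow]
    generalize Ideal.Quotient.mk J (X (0, 0)) = x0 at *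
    generalize Ideal.Quotient.mk J (X (0, 1)) = y0 at *
    generalize Ideal.Quotient.mk J (X (0, 2)) = z0 at *
    generalize Ideal.Quotient.mk J (X (1, 0)) = x1 at *
    generalize Ideal.Quotient.mk J (X (1, 1)) = y1 at *
    generalize Ideal.Quotient.mk J (X (1, 2)) = z1 at *
    generalize Ideal.Quotient.mk J (X (2, 0)) = x2 at *
    generalize Ideal.Quotient.mk J (X (2, 1)) = y2 at *
    generalize Ideal.Quotient.mk J (X (2, 2)) = z2 at *
    linear_combination (algebraMap k (MvPolynomial (Fin 3 × Fin (2 + 1)) k ⧸ J) 3⁻¹) *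
      (z1 * (x2 * b3 - z2 * b1 - y2 * b2) + z0 * (x2 * c3 - z2 * c1 - y2 * c2) + y2 ^ 2 * a3 -
        y1 * y2 * b3 + (x0 * z2 + z0 * x2) * c3 - z2 ^ 2 * a1 - z1 * z2 * b1 - z0 * z2 * c1) -
      z0 * z1 * x2 ^ 2 * h3'

end triangle

/-- **Jet ideals with embedded components.** For every field `k` the edge ideal of the triangle has
a jet ideal with an embedded component: the 1-jets if `k` has characteristic `≠ 2` and the 2-jets
if `k` has characteristic `≠ 3`. In particular there are a clutter `C` and an `s` such that the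
`s`-jet ideal of the edge ideal of `C` has an associated prime which is not minimal. -/
theorem result (k : Type*) [Field k] :
    IsClutter triangle ∧
    ((2 : k) ≠ 0 → HasEmbeddedComponent (jetIdeal 1 (edgeIdeal k triangle))) ∧
    ((3 : k) ≠ 0 → HasEmbeddedComponent (jetIdeal 2 (edgeIdeal k triangle))) ∧
    ∃ (n : ℕ) (C : Set (Finset (Fin n))) (s : ℕ), IsClutter C ∧
      HasEmbeddedComponent (jetIdeal s (edgeIdeal k C)) := by
  refine ⟨isClutter_triangle, one_jets, two_jets, 3, triangle, ?_⟩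
  by_cases h2 : (2 : k) = 0
  · have h3 : (3 : k) ≠ 0 := by
      intro h3
      have : (1 : k) = 3 - 2 := by norm_num
      rw [h2, h3, sub_zero] at this
      exact one_ne_zero this
    exact ⟨2, isClutter_triangle, two_jets h3⟩
  · exact ⟨1, isClutter_triangle, one_jets h2⟩

end Pool.Agent.Results.MP_dc74b6_ag.TriangleJets
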